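import Mathlib
import Pool.Agent.Q276.PL.Stm2

/-! Project PL (helper276), job RGB: few squarefree `d ≤ X` with a small unit. -/

set_option autoImplicit false

namespace Pool.Agent.Q151.PL

open Finset Filter NumberField Pool.Agent.H38R2.CG Pool.Agent.Q276.PL
open scoped Classical

lemma dsc_ge {d : ℕ} (h : 2 ≤ d) : 5 ≤ dsc d := by
  unfold dsc
  split_ifs with h4
  · omega
  · omega

theorem rgb (hUF : StmtUFIN) (hUNI : StmtUNI) : StmtRGB := by
  intro δ h0 h1
  obtain ⟨M', hM'⟩ := hUF (δ / 2) (by linarith) (by linarith)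
  set T : ℝ := (6 : ℝ) ^ (2 / δ) with hT
  refine ⟨|M'| + Real.exp (T ^ (δ / 8)), fun X hX => ?_⟩
  set F := (Finset.Icc 2 X).filter (fun d => Squarefree d ∧
    SmallUnit (dsc d) (Real.exp (Real.log X ^ (3 / 2 - δ)))) with hF
  have hXr : (2 : ℝ) ≤ X := by exact_mod_cast hX
  have hX0 : (0 : ℝ) ≤ X := by linarith
  have hl0 : 0 ≤ Real.log X := Real.log_nonneg (by linarith)
  have hE : 0 < Real.exp (-(Real.log X ^ (δ / 8))) := Real.exp_pos _
  rcases lt_or_ge (Real.log X) T with hlt | hge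
  · have hc : (F.card : ℝ) ≤ X := by
      have : F.card ≤ X := by
        calc F.card ≤ (Finset.Icc 2 X).card := Finset.card_filter_le _ _
          _ = X + 1 - 2 := Nat.card_Icc 2 X
          _ ≤ X := by omega
      exact_mod_cast this
    have h2 : Real.log X ^ (δ / 8) ≤ T ^ (δ / 8) := Real.rpow_le_rpow hl0 hlt.le (by linarith)
    have h3 : 1 ≤ Real.exp (T ^ (δ / 8)) * Real.exp (-(Real.log X ^ (δ / 8))) := by
      rw [← Real.exp_add]
      exact Real.one_le_exp (by linarith)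
    have h4 : (X : ℝ) * 1 ≤ X * (Real.exp (T ^ (δ / 8)) * Real.exp (-(Real.log X ^ (δ / 8)))) :=
      mul_le_mul_of_nonneg_left h3 hX0
    have h5 : 0 ≤ |M'| * X * Real.exp (-(Real.log X ^ (δ / 8))) :=
      mul_nonneg (mul_nonneg (abs_nonneg M') hX0) hE.le
    calc (F.card : ℝ) ≤ X := hc
      _ ≤ |M'| * X * Real.exp (-(Real.log X ^ (δ / 8))) +
        X * (Real.exp (T ^ (δ / 8)) * Real.exp (-(Real.log X ^ (δ / 8)))) := by linarith
      _ = _ := by ring
  · -- large `X`
    have hTpos : 0 < T := Real.rpow_pos_of_pos (by norm_num) _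
    have hlpos : 0 < Real.log X := lt_of_lt_of_le hTpos hge
    have h6 : 6 ≤ Real.log X ^ (δ / 2) := by
      have : T ^ (δ / 2) = 6 := by
        rw [hT, ← Real.rpow_mul (by norm_num)]
        have : 2 / δ * (δ / 2) = 1 := by field_simp
        rw [this, Real.rpow_one]
      rw [← this]
      exact Real.rpow_le_rpow hTpos.le hge (by linarith)
    have hexp : 6 * Real.log X ^ (3 / 2 - δ) ≤ Real.log X ^ (3 / 2 - δ / 2) := by
      have e : (3 / 2 - δ / 2 : ℝ) = δ / 2 + (3 / 2 - δ) := by ring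
      rw [e, Real.rpow_add hlpos]
      exact mul_le_mul_of_nonneg_right h6 (Real.rpow_nonneg hl0 _)
    set S : Set ℤ := {d : ℤ | 2 ≤ d ∧ (d : ℝ) ≤ (X : ℝ) ∧ Squarefree d ∧ ∃ x y : ℤ, 1 ≤ y ∧
      (y : ℝ) ≤ Real.exp (Real.log X ^ (3 / 2 - δ / 2)) ∧ x ^ 2 - d * y ^ 2 = 1} with hS
    have hSfin : S.Finite := by
      refine (Set.finite_Icc (2 : ℤ) X).subset ?_
      rintro d ⟨h, h', -⟩
      exact ⟨h, by exact_mod_cast h'⟩
    have key : ∀ d ∈ F, ((d : ℕ) : ℤ) ∈ S := by
      intro d hd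
      rw [hF, Finset.mem_filter, Finset.mem_Icc] at hd
      obtain ⟨⟨hd2, hdX⟩, hsq, t, u, ht, hu, htu, hb⟩ := hd
      have hD5 := dsc_ge hd2
      obtain ⟨x, y, hx, hy, hxy, hle⟩ := hUNI (dsc d : ℤ) t u (by exact_mod_cast hD5)
        (by exact_mod_cast ht) (by exact_mod_cast hu) htu
      have hle' : (x : ℝ) + y * √(dsc d : ℝ) ≤ (((t : ℝ) + u * √(dsc d : ℝ)) / 2) ^ 6 := by
        exact_mod_cast hle
      have hpos : 0 ≤ ((t : ℝ) + u * √(dsc d : ℝ)) / 2 := by positivity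
      have hB : (x : ℝ) + y * √(dsc d : ℝ) ≤ Real.exp (Real.log X ^ (3 / 2 - δ / 2)) := by
        calc (x : ℝ) + y * √(dsc d : ℝ) ≤ (((t : ℝ) + u * √(dsc d : ℝ)) / 2) ^ 6 := hle'
          _ ≤ (Real.exp (Real.log X ^ (3 / 2 - δ))) ^ 6 := pow_le_pow_left₀ hpos hb 6
          _ = Real.exp (6 * Real.log X ^ (3 / 2 - δ)) := by
            rw [← Real.exp_nat_mul]
            norm_num
          _ ≤ _ := Real.exp_le_exp.2 hexp
      have hx1 : (1 : ℝ) ≤ x := by exact_mod_cast hx
      have hy1 : (1 : ℝ) ≤ y := by exact_mod_cast hy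
      refine ⟨by exact_mod_cast hd2, by exact_mod_cast hdX, Int.squarefree_natCast.2 hsq, ?_⟩
      by_cases h4 : d % 4 = 1
      · have e : dsc d = d := by unfold dsc; rw [if_pos h4]
        rw [e] at hxy hB hD5
        refine ⟨x, y, hy, ?_, hxy⟩
        have hs1 : 1 ≤ √(d : ℝ) := by
          rw [Real.one_le_sqrt]
          exact_mod_cast (by omega : 1 ≤ d)
        nlinarith
      · have e : dsc d = 4 * d := by unfold dsc; rw [if_neg h4]
        rw [e] at hxy hB hD5
        refine ⟨x, 2 * y, by omega, ?_, ?_⟩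
        · have hs1 : 2 ≤ √((4 * d : ℕ) : ℝ) := by
            apply Real.le_sqrt_of_sq_le
            push_cast
            have : (2 : ℝ) ≤ d := by exact_mod_cast hd2
            linarith
          push_cast at hB hs1 ⊢
          nlinarith
        · push_cast at hxy
          rw [← hxy]
          ring
    have hcard : F.card ≤ S.ncard := by
      rw [← Set.ncard_coe_finset, ← Set.ncard_image_of_injective (F : Set ℕ)
        (Nat.cast_injective : Function.Injective (Nat.cast : ℕ → ℤ))]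
      refine Set.ncard_le_ncard ?_ hSfin
      rintro _ ⟨d, hd, rfl⟩
      exact key d (by simpa using hd)
    have hM := hM' X (by linarith)
    have e8 : (δ / 2 / 4 : ℝ) = δ / 8 := by ring
    rw [e8] at hM
    have hXE : 0 ≤ (X : ℝ) * Real.exp (-(Real.log X ^ (δ / 8))) := mul_nonneg hX0 hE.le
    have h9 : 0 ≤ Real.exp (T ^ (δ / 8)) * ((X : ℝ) * Real.exp (-(Real.log X ^ (δ / 8)))) :=
      mul_nonneg (Real.exp_pos _).le hXE
    have h10 : M' * ((X : ℝ) * Real.exp (-(Real.log X ^ (δ / 8)))) ≤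
        |M'| * ((X : ℝ) * Real.exp (-(Real.log X ^ (δ / 8)))) :=
      mul_le_mul_of_nonneg_right (le_abs_self _) hXE
    calc (F.card : ℝ) ≤ S.ncard := by exact_mod_cast hcard
      _ ≤ M' * X * Real.exp (-(Real.log X ^ (δ / 8))) := hM
      _ = M' * ((X : ℝ) * Real.exp (-(Real.log X ^ (δ / 8)))) := by ring
      _ ≤ |M'| * ((X : ℝ) * Real.exp (-(Real.log X ^ (δ / 8)))) +
        Real.exp (T ^ (δ / 8)) * ((X : ℝ) * Real.exp (-(Real.log X ^ (δ / 8)))) := by linarith
      _ = _ := by ring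

end Pool.Agent.Q151.PL
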